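import Pool.Agent.H31.THN.BW1
import Pool.Agent.H27.L1.H40.GHK.QIR
import Pool.Agent.H27.L1.H80.GHK.GHR
import Pool.Agent.H20.THN.OC1

/-!
Board thn (MP_52e316_nt): the row BW1 without hypotheses.
-/

set_option autoImplicit false

namespace Pool.Agent.H31.THN

open Pool.Agent.H27.L1.H34.GM Pool.Agent.H27.L1.H34.GZ Pool.Agent.H27.L1.H34.GU Pool.Agent.H27.L1.H34.GA

theorem c_GHR : Pool.Agent.H27.L1.H31.GK.T_GHR :=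
  Pool.Agent.H27.L1.H80.GHK.pf_GHR Pool.Agent.H27.L1.H23.GA.All.c_UBD
    Pool.Agent.H27.L1.H34.GZ.g_MSR Pool.Agent.H27.L1.H40.GHK.pf_BLR2

theorem c_BEG : T_BEG :=
  pf_BEG Pool.Agent.H27.L1.H23.GA.All.c_BIA Pool.Agent.H27.L1.H23.GA.All.c_TBA
    Pool.Agent.H27.L1.H23.GHY.All.c_MSD Pool.Agent.H27.L1.H23.GA.All.c_RRN
    Pool.Agent.H27.L1.H34.GZ.g_MSR Pool.Agent.H27.L1.H34.GZ.a_VLM Pool.Agent.H27.L1.H34.GZ.a_RTI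
    Pool.Agent.H27.L1.H34.GU.b_ALU Pool.Agent.H27.L1.H34.GZ.a_DYM c_GHR
    Pool.Agent.H27.L1.H40.GHK.pf_BLR2
    (Pool.Agent.H27.L1.H40.GHK.pf_QIR2 Pool.Agent.H27.L1.H34.GZ.a_VLM
      Pool.Agent.H27.L1.H34.GZ.g_HAR)

theorem c_BEK : T_BEK := pf_BEK Pool.Agent.H27.L1.H34.GHK.c_IPT c_BEG

theorem c_BW1 : Pool.Agent.H47.THN.T_BW1 :=
  pf_BW1 Pool.Agent.H27.L1.H23.GA.All.c_BIA Pool.Agent.H20.THN.c_KC1 Pool.Agent.H20.THN.c_KM1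
    Pool.Agent.H20.THN.c_OC1 c_BEK

end Pool.Agent.H31.THN
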