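import Pool.Agent.H31.THN.CGO
import Pool.Agent.H36.THN.GK1
import Pool.Agent.H27.L1.Fin

/-!
Board thn (MP_52e316_nt): the second moment in the windows, all the admissible weights, no hypotheses.
-/

set_option autoImplicit false

namespace Pool.Agent.H31.THN

open Pool.Agent.H27.L1.H34.GM Pool.Agent.H27.L1.H34.GZ Pool.Agent.H27.L1.H34.GU Pool.Agent.H27.L1.H34.GA
open Pool.Agent.H47.THN

theorem c_GK1 : T_GK1 :=
  Pool.Agent.H36.THN.pf_GK1 Pool.Agent.H27.L1.H23.GA.All.c_ENA Pool.Agent.H27.L1.H34.GZZ.c_HYZ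

/-- the second moment in a window, all the admissible weights -/
theorem c_LV1 : T_LV1 := lv1_of c_GK1

end Pool.Agent.H31.THN
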