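import Pool.Agent.H47.THN.Targets

/-!
Board thn (MP_52e316_nt), rows GH1 and GO1: the second moment in a window from the inequalities of Bessel.
-/

set_option autoImplicit false

namespace Pool.Agent.H31.THN

open MeasureTheory Pool.Agent.H27.L1.H34.GM Pool.Agent.H27.L1.H34.GZ Pool.Agent.H27.L1.H34.GU Pool.Agent.H27.L1.H34.GA
open Pool.Agent.H27.L1.H68.GHY Pool.Agent.H27.L1.H34.GHY Pool.Agent.H27.L1.H68.GHK
open Pool.Agent.H47.THN (Q2 BES1 T_BW1 T_BO1 T_GB1 T_GH1 T_GO1)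

/-- the radius -/
theorem radius {c0 : ℝ} (hc0 : 0 < c0) : ∃ c' : ℝ, 0 < c' ∧ c' ≤ 1 / 2 ∧
    ∀ H : ℝ, 1 ≤ H → ∀ δ : ℝ, δ = c' / H → 0 < δ ∧ δ ≤ 1 / 2 ∧ δ * (1 + H) ≤ c0 := by
  refine ⟨min (1 / 2) (c0 / 2), lt_min (by norm_num) (by positivity), min_le_left _ _, ?_⟩
  intro H hH δ hδ
  obtain ⟨c', hc'⟩ : ∃ c' : ℝ, c' = min (1 / 2) (c0 / 2) := ⟨_, rfl⟩
  rw [← hc'] at hδ
  have h1 : 0 < c' := by rw [hc']; exact lt_min (by norm_num) (by positivity)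
  have h2 : c' ≤ 1 / 2 := by rw [hc']; exact min_le_left _ _
  have h3 : c' ≤ c0 / 2 := by rw [hc']; exact min_le_right _ _
  have hH0 : 0 < H := by linarith
  have hδ0 : 0 < δ := by rw [hδ]; positivity
  have hδH : δ * H = c' := by rw [hδ]; field_simp
  have hδH1 : δ ≤ δ * H := le_mul_of_one_le_right hδ0.le hH
  exact ⟨hδ0, by linarith, by linarith⟩

theorem pf_GH1 (hPRF : T_PRF) (hBW : T_BW1) (hGB : T_GB1) : T_GH1 := by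
  obtain ⟨χ, hχ⟩ := hPRF
  intro m hm1 r ε hr hε
  obtain ⟨c0, CM, AM, hc0, hCM, hK⟩ := hBW m χ r hm1 hχ hr
  obtain ⟨c', hc', hc'1, hrad⟩ := radius hc0
  obtain ⟨C, hC, hb⟩ := hGB m hm1 ε hε χ hχ c0 CM AM hc0 hCM c' hc' hc'1
  refine ⟨C, hC, ?_⟩
  intro N _ T D hS H hH ι _ _ F lam hF hO
  have hH0 : 0 ≤ H := by linarith
  have hHn : ∀ i, 0 ≤ Hn r D (F i) := fun i => integral_nonneg fun u => by positivity
  obtain ⟨δ, hδ⟩ : ∃ δ : ℝ, δ = c' / H := ⟨_, rfl⟩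
  obtain ⟨hδ0, hδ1, hδ2⟩ := hrad H hH δ hδ
  exact hb N T D hS H hH ι F lam (fun i => (Hn r D (F i))⁻¹)
    (fun i => ⟨(hF i).1, (hF i).2, hO.one i⟩) (fun i => inv_nonneg.2 (hHn i)) δ hδ
    (fun Y _ hY => hK N T D hS ι F lam H hF hO hH0 δ hδ0 hδ1 hδ2 Y hY)

theorem pf_GO1 (hPRF : T_PRF) (hBO : T_BO1) (hGB : T_GB1) : T_GO1 := by
  obtain ⟨χ, hχ⟩ := hPRF
  intro m hm1 ε hε
  obtain ⟨c0, CM, AM, hc0, hCM, hK⟩ := hBO m χ hm1 hχ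
  obtain ⟨c', hc', hc'1, hrad⟩ := radius hc0
  obtain ⟨C, hC, hb⟩ := hGB m hm1 ε hε χ hχ c0 CM AM hc0 hCM c' hc' hc'1
  refine ⟨C, hC, ?_⟩
  intro N _ T D hS H hH ι _ _ F lam hF hO
  have hH0 : 0 ≤ H := by linarith
  obtain ⟨δ, hδ⟩ : ∃ δ : ℝ, δ = c' / H := ⟨_, rfl⟩
  obtain ⟨hδ0, hδ1, hδ2⟩ := hrad H hH δ hδ
  have hn : ∀ i, nU D (F i) = 1 := fun i => mou_nU F hO i
  obtain ⟨L, hL, hLb⟩ := hb N T D hS H hH ι F lam (fun _ => 1)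
    (fun i => ⟨(hF i).1, (hF i).2, hn i⟩) (fun _ => zero_le_one) δ hδ
    (fun Y _ hY => by
      have h1 := hK N T D hS ι F lam H (fun i => ⟨(hF i).1, (hF i).2, hn i⟩) hO hH0 δ hδ0 hδ1 hδ2
        Y hY
      rw [ENNReal.ofReal_one]
      exact h1)
  refine ⟨L, hL, fun t0 J hJ hJH => ?_⟩
  have h1 := hLb t0 J hJ hJH
  simp only [one_mul] at h1
  exact h1

end Pool.Agent.H31.THN
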