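import Pool.Agent.H31.THN.BEG
import Pool.Agent.H27.L1.H31.GK.LSK

/-!
Board thn (MP_52e316_nt): the inequality of Bessel for forms which generate orthogonal spaces, with
the weights `1 / Hn`, for an arbitrary kernel.
-/

set_option autoImplicit false

namespace Pool.Agent.H31.THN

open MeasureTheory Filter Pool.Agent.H27.L1.H34.GM Pool.Agent.H27.L1.H34.GZ Pool.Agent.H27.L1.H34.GU Pool.Agent.H27.L1.H34.GA
  Pool.Agent.H27.L1.H68.GHY
open Pool.Agent.H27.L1.H68.GHK (ip rt Bn Hn OrS T_IPT)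
open Pool.Agent.H27.L1.H85.GHK (GG GG_meas GG_Hn vol_hm nr Bn_meas)
open Pool.Agent.H27.L1.H31.GK (Hr Bl ipz Sep)
open Pool.Agent.H27.L1.H31.LSK (hr_le)

/-- the sieve inequality for forms which generate orthogonal spaces, for any kernel -/
def T_BEK : Prop := ∀ (m : ℕ) (χ : ℝ → ℝ) (r : ℝ), 1 ≤ m → Prof χ → 0 < r →
  ∃ (c C : ℝ) (A : ℕ), 0 < c ∧ 1 ≤ C ∧
  ∀ (N : ℕ) [NeZero N] (T : ℕ → Finset (ZM m)) (D : Set (V m)), SysZ m N T D →
  ∀ (ι : Type) [Fintype ι] [DecidableEq ι] (F : ι → Mat m → VN m N → ℂ)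
    (lam : ι → ℕ → ℂ) (P : ι → ℝ),
  (∀ i, CusB m N T (F i) (lam i) ∧ Lip D (F i) (P i) ∧ 0 ≤ P i) → OrS D F →
  ∀ δ : ℝ, 0 < δ → δ ≤ 1 / 2 → (∀ i, δ * (1 + P i) ≤ c) →
  ∀ (y x0 Y : ℝ), C * N * δ⁻¹ ^ A ≤ Y →
  ∀ (Kf : Mat m → VN m N → Mat m → VN m N → ℂ) (b : (ℕ → ℂ) → ℂ),
    KerB T D (bi m χ δ) δ y x0 Kf b →
    ENNReal.ofReal (tb m χ δ ^ 2) *
      ∑ i, ENNReal.ofReal (‖b (lam i)‖ ^ 2 * (Hn r D (F i))⁻¹) ≤
      ENNReal.ofReal C * ∫⁻ g in DY D Y, Ed N D δ y x0 (mt g) ∂(hm m)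

theorem pf_BEK (hIPT : T_IPT) (hBEG : T_BEG) : T_BEK := by
  intro m χ r hm1 hχ hr
  have hm0 : (0 : ℝ) < m := by exact_mod_cast hm1
  obtain ⟨C1, hC1, hnr⟩ := nr hm1
  have hnr' : ∀ z : Mat m, sz (z - 1) ≤ 1 / (2 * m) →
      z.det ≠ 0 ∧ C1⁻¹ ≤ |z.det| ∧ |z.det| ≤ C1 := fun z hz =>
    ⟨(hnr z hz).1, (hnr z hz).2.1, (hnr z hz).2.2.1⟩
  obtain ⟨s, hs⟩ : ∃ s : ℝ, s = min r (1 / (2 * m)) := ⟨_, rfl⟩
  have hs0 : 0 < s := by rw [hs]; exact lt_min hr (by positivity)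
  have hs1 : s ≤ 1 / (2 * m) := by rw [hs]; exact min_le_right _ _
  have hsr : s ≤ r := by rw [hs]; exact min_le_left _ _
  obtain ⟨c, C, A, hc, hC, hB⟩ := hBEG m s χ hm1 hs0 hs1 hχ
  have hC10 : 0 < C1 := by linarith
  have hC1m : 0 < C1 ^ m := by positivity
  refine ⟨c, max C (C1 ^ m / c), A, hc, hC.trans (le_max_left _ _), ?_⟩
  intro N _ T D hS ι _ _ F lam P hF hO δ hδ hδ2 hδc y x0 Y hY Kf b hKB
  rcases isEmpty_or_nonempty ι with hι | hι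
  · simp
  have hδ1 : 1 ≤ δ⁻¹ := by
    rw [one_le_inv₀ hδ]
    linarith
  have hY' : C * N * δ⁻¹ ^ A ≤ Y := by
    refine le_trans ?_ hY
    gcongr
    exact le_max_left _ _
  have hH0 : ∀ i, 0 ≤ Hn r D (F i) := fun i => integral_nonneg fun z => by positivity
  -- the largest Lipschitz constant
  obtain ⟨i0, hi0⟩ := Finite.exists_max P
  have hP0 := (hF i0).2.2
  have hLip : ∀ i, Lip D (F i) (P i0) := by
    intro i w hw
    refine ((hF i).2.1 w hw).trans ?_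
    have h1 : 0 ≤ sz (w - 1) := Pool.Agent.H27.L1.H84.GA.BD.sz_nn _
    have h2 := (hF i).2.2
    have h3 := hi0 i
    gcongr
  obtain ⟨W, hW⟩ : ∃ W : ι → ℝ, ∀ i, W i = (C1 ^ m)⁻¹ * (Hn r D (F i))⁻¹ := ⟨_, fun _ => rfl⟩
  have hW0 : ∀ i, 0 ≤ W i := fun i => by
    rw [hW]
    have := hH0 i
    positivity
  have hW1 : ∀ i, W i * Hr s D (F i) ≤ 1 := by
    intro i
    have h1 := hr_le hIPT hS (hF i).1.toHecA (hO.one i) hC1 hnr' hs1 hsr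
    have h2 := hW0 i
    refine (mul_le_mul_of_nonneg_left h1 h2).trans ?_
    rw [hW]
    by_cases h3 : Hn r D (F i) = 0
    · rw [h3]
      simp
    · refine le_of_eq ?_
      field_simp
  have hsep : Sep D F := by
    intro i j hij w hw
    have h1 := hO.orth i j hij w hw
    exact h1
  have hmain := hB N T D hS ι F lam (P i0) W (fun i => ⟨(hF i).1, hLip i, hO.one i⟩) hsep hP0 hW0
    hW1 δ hδ hδ2 (hδc i0) Y hY' y x0 Kf b hKB
  have e1 : ENNReal.ofReal (tb m χ δ ^ 2) *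
      ∑ i, ENNReal.ofReal (‖b (lam i)‖ ^ 2 * (Hn r D (F i))⁻¹) =
      ENNReal.ofReal (C1 ^ m / c) * (ENNReal.ofReal (c * tb m χ δ ^ 2) *
        ∑ i, ENNReal.ofReal (W i) * ENNReal.ofReal (‖b (lam i)‖ ^ 2)) := by
    rw [← mul_assoc, ← ENNReal.ofReal_mul (by positivity), Finset.mul_sum, Finset.mul_sum]
    refine Finset.sum_congr rfl fun i _ => ?_
    have h1 := hH0 i
    rw [← ENNReal.ofReal_mul (hW0 i), ← ENNReal.ofReal_mul (by positivity),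
      ← ENNReal.ofReal_mul (by positivity), hW]
    congr 1
    field_simp
  rw [e1]
  exact mul_le_mul' (ENNReal.ofReal_le_ofReal (le_max_right _ _)) hmain

end Pool.Agent.H31.THN
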