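import Pool.Agent.H31.THN.BEK
import Pool.Agent.H47.THN.Targets

/-!
Board thn (MP_52e316_nt), row BW1: the inequality of Bessel for forms which generate orthogonal spaces.
-/

set_option autoImplicit false

namespace Pool.Agent.H31.THN

open MeasureTheory Filter Pool.Agent.H27.L1.H34.GM Pool.Agent.H27.L1.H34.GZ Pool.Agent.H27.L1.H34.GU Pool.Agent.H27.L1.H34.GA
  Pool.Agent.H27.L1.H68.GHY
open Pool.Agent.H27.L1.H68.GHK (ip rt Bn Hn OrS T_IPT)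
open Pool.Agent.H47.THN (K1 B1 BES1 T_KC1 T_KM1 T_OC1 T_BW1)

/-- the kernel of one Hecke operator -/
theorem kerB_K1 (hBIA : T_BIA) (hKC : T_KC1) (hKM : T_KM1) (hOC : T_OC1) {m N : ℕ} [NeZero N]
    {T : ℕ → Finset (ZM m)} {D : Set (V m)} (hS : SysZ m N T D) {χ : ℝ → ℝ} (hχ : Prof χ)
    {y : ℝ} {a : ℕ → ℂ} {d x0 : ℝ} (hy : 1 ≤ y) (ha : Coe y a) (hd : 0 < d) (hd2 : d ≤ 1 / 2)
    (hx0 : 0 < x0) :
    KerB (N := N) T D (bi m χ d) d (Real.sqrt y) x0 (K1 (bi m χ d) a d x0)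
      (fun lam => B1 m lam a y d x0) := by
  have hm1 := hS.one_le
  obtain ⟨C, -, hB⟩ := hBIA m χ hm1 hχ
  exact ⟨fun x w => hKM m N d x w hm1 _ (hB d hd hd2).1.toTg a x0,
    fun g h x w => (hKC m N χ hm1 hS.two_le hχ y a d x0 hy ha hd hd2 hx0).1 g h x w,
    fun F lam hF g x hg => hOC m N T D hS F lam hF χ hχ y a d x0 hy ha hd hd2 hx0 g x hg⟩

theorem pf_BW1 (hBIA : T_BIA) (hKC : T_KC1) (hKM : T_KM1) (hOC : T_OC1) (hBEK : T_BEK) :
    T_BW1 := by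
  intro m χ r hm1 hχ hr
  obtain ⟨c, C, A, hc, hC, hB⟩ := hBEK m χ r hm1 hχ hr
  have hC0 : 0 < C := by linarith
  refine ⟨min c C⁻¹, C, A, lt_min hc (by positivity), hC, ?_⟩
  intro N _ T D hS ι _ _ F lam P hF hO hP δ hδ hδ2 hδc Y hY y a x0 hy ha hx0
  have h1 := hB N T D hS ι F lam (fun _ => P) (fun i => ⟨(hF i).1, (hF i).2, hP⟩) hO δ hδ hδ2
    (fun _ => hδc.trans (min_le_left _ _)) (Real.sqrt y) x0 Y hY _ _
    (kerB_K1 hBIA hKC hKM hOC hS hχ hy ha hδ hδ2 hx0)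
  have hH0 : ∀ i, 0 ≤ Hn r D (F i) := fun i => integral_nonneg fun z => by positivity
  have e1 : ENNReal.ofReal (min c C⁻¹ * tb m χ δ ^ 2) ≤
      ENNReal.ofReal C⁻¹ * ENNReal.ofReal (tb m χ δ ^ 2) := by
    rw [← ENNReal.ofReal_mul (by positivity)]
    refine ENNReal.ofReal_le_ofReal ?_
    gcongr
    exact min_le_right _ _
  have e2 : ∑ i, ENNReal.ofReal (Hn r D (F i))⁻¹ *
      ENNReal.ofReal (‖B1 m (lam i) a y δ x0‖ ^ 2) =
      ∑ i, ENNReal.ofReal (‖B1 m (lam i) a y δ x0‖ ^ 2 * (Hn r D (F i))⁻¹) := by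
    refine Finset.sum_congr rfl fun i _ => ?_
    have := hH0 i
    rw [← ENNReal.ofReal_mul (by positivity), mul_comm]
  beta_reduce
  rw [e2]
  refine (mul_le_mul' e1 le_rfl).trans ?_
  rw [mul_assoc]
  refine (mul_le_mul' le_rfl h1).trans ?_
  rw [← mul_assoc, ← ENNReal.ofReal_mul (by positivity), inv_mul_cancel₀ hC0.ne',
    ENNReal.ofReal_one, one_mul]

end Pool.Agent.H31.THN
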