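import Pool.Agent.H31.THN.BO1
import Pool.Agent.H31.THN.CBW
import Pool.Agent.H31.THN.GH1
import Pool.Agent.H31.THN.LV1
import Pool.Agent.H47.THN.GB1
import Pool.Agent.H23.THN.LS1
import Pool.Agent.H14.THN.LQ1
import Pool.Agent.H27.L1.H52.GHK.HKC

/-!
Board thn (MP_52e316_nt): everything from the row GK1.
-/

set_option autoImplicit false

namespace Pool.Agent.H31.THN

open Pool.Agent.H27.L1.H34.GM Pool.Agent.H27.L1.H34.GZ Pool.Agent.H27.L1.H34.GU Pool.Agent.H27.L1.H34.GA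
open Pool.Agent.H47.THN

theorem c_BO1 : T_BO1 :=
  BO.pf_BO1 Pool.Agent.H27.L1.H23.GA.All.c_BIA Pool.Agent.H20.THN.c_KC1 Pool.Agent.H20.THN.c_KM1
    Pool.Agent.H20.THN.c_OC1 Pool.Agent.H27.L1.H23.GHY.All.c_KMD Pool.Agent.H27.L1.H34.GZ.a_DYM
    Pool.Agent.H27.L1.H23.GHY.All.c_MSD

theorem gb1_of (h : T_GK1) : T_GB1 :=
  Pool.Agent.H47.THN.pf_GB1
    (Pool.Agent.H23.THN.pf_LS1 Pool.Agent.H27.L1.H23.GHY.All.c_ENG
      Pool.Agent.H27.L1.H23.GHY.All.c_TBS)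
    Pool.Agent.H14.THN.pf_LQ1 Pool.Agent.H14.THN.pf_CR1 Pool.Agent.H23.THN.pf_DY1 h

/-- the second moment in a window, all weights, from the row GK1 -/
theorem lv1_of (h : T_GK1) : T_LV1 :=
  LV.pf_LV1 (pf_GO1 pf_PRF c_BO1 (gb1_of h)) (pf_GH1 pf_PRF c_BW1 (gb1_of h))
    Pool.Agent.H27.L1.H52.GHK.c_HKW Pool.Agent.H27.L1.H34.GHK.c_ORS
    Pool.Agent.H27.L1.H34.GU.b_APU Pool.Agent.H27.L1.H34.GHK.c_WYE

end Pool.Agent.H31.THN
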